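import Mathlib
import Pool.Agent.Helper6.Helly.Selection

/-!
Level and signs: for an orthogonal projection with small diagonal there are a vector in its range and
a large set of coordinates on which it is at least one, with controlled sum of absolute values.
-/

set_option autoImplicit false

namespace Pool.Agent.Helper98.QH

open scoped BigOperators Matrix
open Pool.Agent.Helper6.Helly

lemma sum_cons {n : ℕ} (f : (Fin (n + 1) → Bool) → ℝ) :
    ∑ σ, f σ = ∑ b : Bool, ∑ τ : Fin n → Bool, f (Fin.cons b τ) := by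
  rw [← (Fin.consEquiv (fun _ => Bool)).sum_comp, Fintype.sum_prod_type]
  rfl

lemma fourth {n : ℕ} (c : Fin n → ℝ) :
    ∑ σ : Fin n → Bool, (∑ v, sg (σ v) * c v) ^ 4 ≤
      3 * (Fintype.card (Fin n → Bool) : ℝ) * (∑ v, c v ^ 2) ^ 2 := by
  induction n with
  | zero => simp
  | succ n ih =>
    rw [sum_cons]
    simp only [Fin.sum_univ_succ, Fin.cons_zero, Fin.cons_succ, Fintype.sum_bool]
    have h2 := sum_sq (fun v : Fin n => c v.succ)
    have h4 := ih (fun v => c v.succ)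
    have hN : (Fintype.card (Fin (n + 1) → Bool) : ℝ) = 2 * (Fintype.card (Fin n → Bool) : ℝ) := by
      simp [pow_succ]
      ring
    rw [hN, ← Finset.sum_add_distrib]
    have h1 : ∀ τ : Fin n → Bool,
        (sg true * c 0 + ∑ i, sg (τ i) * c i.succ) ^ 4 +
          (sg false * c 0 + ∑ i, sg (τ i) * c i.succ) ^ 4 =
        2 * c 0 ^ 4 + 12 * c 0 ^ 2 * (∑ i, sg (τ i) * c i.succ) ^ 2 +
          2 * (∑ i, sg (τ i) * c i.succ) ^ 4 := by
      intro τ
      simp only [sg, if_true]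
      norm_num
      ring
    simp only [h1, Finset.sum_add_distrib, ← Finset.mul_sum, h2]
    rw [Finset.sum_const, nsmul_eq_mul, Finset.card_univ]
    have hNn : (0 : ℝ) ≤ (Fintype.card (Fin n → Bool) : ℝ) := by positivity
    have hs : (0 : ℝ) ≤ ∑ i : Fin n, c i.succ ^ 2 := Finset.sum_nonneg fun i _ => sq_nonneg _
    nlinarith [mul_nonneg hNn (sq_nonneg (c 0 ^ 2)), h4]

/-- pointwise Paley-Zygmund -/
lemma pz_point (Z : ℝ) (_hZ : 0 ≤ Z) :
    (1 / 2) * (Z - 1 / 4 - Z ^ 2 / 8) ≤ if 1 / 4 ≤ Z then (1 : ℝ) else 0 := by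
  split_ifs with h
  · nlinarith [sq_nonneg (Z - 4)]
  · push Not at h
    nlinarith [sq_nonneg Z]

lemma pz {n : ℕ} (c : Fin n → ℝ) (p : ℝ) (hp : 0 < p) (hc : ∑ v, c v ^ 2 = p) :
    (3 / 16) * (Fintype.card (Fin n → Bool) : ℝ) ≤
      ∑ σ : Fin n → Bool, if p / 4 ≤ (∑ v, sg (σ v) * c v) ^ 2 then (1 : ℝ) else 0 := by
  have h2 := sum_sq c
  have h4 := fourth c
  rw [hc] at h2 h4
  have h1 : ∀ σ : Fin n → Bool,
      (1 / 2) * ((∑ v, sg (σ v) * c v) ^ 2 / p - 1 / 4 -
        ((∑ v, sg (σ v) * c v) ^ 2 / p) ^ 2 / 8) ≤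
      if p / 4 ≤ (∑ v, sg (σ v) * c v) ^ 2 then (1 : ℝ) else 0 := by
    intro σ
    have := pz_point ((∑ v, sg (σ v) * c v) ^ 2 / p) (by positivity)
    refine this.trans (le_of_eq ?_)
    congr 1
    rw [le_div_iff₀ hp]
    simp only [eq_iff_iff]
    constructor <;> intro h <;> linarith
  refine le_trans ?_ (Finset.sum_le_sum fun σ _ => h1 σ)
  have h3 : ∀ σ : Fin n → Bool,
      (1 / 2) * ((∑ v, sg (σ v) * c v) ^ 2 / p - 1 / 4 -
        ((∑ v, sg (σ v) * c v) ^ 2 / p) ^ 2 / 8) =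
      (1 / (2 * p)) * (∑ v, sg (σ v) * c v) ^ 2 - 1 / 8 -
        (1 / (16 * p ^ 2)) * (∑ v, sg (σ v) * c v) ^ 4 := by
    intro σ
    field_simp
    ring
  simp only [h3, Finset.sum_sub_distrib, ← Finset.mul_sum, h2]
  rw [Finset.sum_const, nsmul_eq_mul, Finset.card_univ]
  have h5 : 1 / (16 * p ^ 2) * ∑ σ : Fin n → Bool, (∑ v, sg (σ v) * c v) ^ 4 ≤
      1 / (16 * p ^ 2) * (3 * (Fintype.card (Fin n → Bool) : ℝ) * p ^ 2) :=
    mul_le_mul_of_nonneg_left h4 (by positivity)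
  have h6 : 1 / (16 * p ^ 2) * (3 * (Fintype.card (Fin n → Bool) : ℝ) * p ^ 2) =
      3 / 16 * (Fintype.card (Fin n → Bool) : ℝ) := by
    field_simp
  have h7 : 1 / (2 * p) * ((Fintype.card (Fin n → Bool) : ℝ) * p) =
      1 / 2 * (Fintype.card (Fin n → Bool) : ℝ) := by
    field_simp
  rw [h6] at h5
  rw [h7]
  linarith

lemma sum_abs_le {n : ℕ} (c : Fin n → ℝ) :
    ∑ σ : Fin n → Bool, |∑ v, sg (σ v) * c v| ≤
      (Fintype.card (Fin n → Bool) : ℝ) * √(∑ v, c v ^ 2) := by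
  have h2 := sum_sq c
  have h1 := sq_sum_le_card_mul_sum_sq (s := (Finset.univ : Finset (Fin n → Bool)))
    (f := fun σ => |∑ v, sg (σ v) * c v|)
  simp only [sq_abs, h2, Finset.card_univ] at h1
  have hN : (0 : ℝ) ≤ (Fintype.card (Fin n → Bool) : ℝ) := by positivity
  have hs : (0 : ℝ) ≤ ∑ v, c v ^ 2 := Finset.sum_nonneg fun i _ => sq_nonneg _
  refine abs_le_of_sq_le_sq' ?_ (by positivity) |>.2
  rw [mul_pow, Real.sq_sqrt hs]
  calc _ ≤ _ := h1
    _ = _ := by ring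

/-- Rank sum: sum of `1/√rank` is at most `2 √n`. -/
lemma rank_sum {ι : Type} [DecidableEq ι] (p : ι → ℝ) : ∀ (m : ℕ) (s : Finset ι), s.card = m →
    ∑ i ∈ s, 1 / √((s.filter fun j => p i ≤ p j).card : ℝ) ≤ 2 * √(m : ℝ) := by
  intro m
  induction m with
  | zero =>
    intro s hs
    rw [Finset.card_eq_zero] at hs
    subst hs
    simp
  | succ m ih =>
    intro s hs
    have hne : s.Nonempty := by
      rw [← Finset.card_pos]; omega
    obtain ⟨i0, hi0, hmin⟩ := s.exists_min_image p hne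
    rw [← Finset.add_sum_erase s _ hi0]
    have h0 : s.filter (fun j => p i0 ≤ p j) = s := by
      rw [Finset.filter_eq_self]
      exact hmin
    rw [h0, hs]
    have h1 : ∑ i ∈ s.erase i0, 1 / √((s.filter fun j => p i ≤ p j).card : ℝ) ≤
        ∑ i ∈ s.erase i0, 1 / √(((s.erase i0).filter fun j => p i ≤ p j).card : ℝ) := by
      refine Finset.sum_le_sum fun i hi => ?_
      have hpos : 0 < ((s.erase i0).filter fun j => p i ≤ p j).card := by
        rw [Finset.card_pos]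
        exact ⟨i, by simp [Finset.mem_filter, hi]⟩
      refine one_div_le_one_div_of_le (Real.sqrt_pos.2 (by exact_mod_cast hpos)) ?_
      refine Real.sqrt_le_sqrt ?_
      exact_mod_cast Finset.card_le_card (Finset.filter_subset_filter _ (Finset.erase_subset _ _))
    have h2 := ih (s.erase i0) (by rw [Finset.card_erase_of_mem hi0, hs]; omega)
    have h3 : 1 / √((m + 1 : ℕ) : ℝ) + 2 * √(m : ℝ) ≤ 2 * √((m + 1 : ℕ) : ℝ) := by
      have hb : 0 < √((m + 1 : ℕ) : ℝ) := Real.sqrt_pos.2 (by positivity)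
      have ha : 0 ≤ √(m : ℝ) := Real.sqrt_nonneg _
      have hb2 : √((m + 1 : ℕ) : ℝ) ^ 2 = (m : ℝ) + 1 := by
        rw [Real.sq_sqrt (by positivity)]; push_cast; ring
      have ha2 : √(m : ℝ) ^ 2 = (m : ℝ) := Real.sq_sqrt (by positivity)
      rw [← sub_nonneg]
      have : 2 * √((m + 1 : ℕ) : ℝ) - (1 / √((m + 1 : ℕ) : ℝ) + 2 * √(m : ℝ)) =
          (√((m + 1 : ℕ) : ℝ) - √(m : ℝ)) ^ 2 / √((m + 1 : ℕ) : ℝ) := by
        field_simp
        nlinarith
      rw [this]
      positivity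
    linarith


/-- The level lemma. -/
lemma level {n : ℕ} (p : Fin n → ℝ) (h0 : ∀ i, 0 ≤ p i) (hq : ∀ i, p i ≤ 1 / 256) (k : ℕ)
    (hk : 1 ≤ k) (hsum : ∑ i, p i = k) :
    ∃ (τ : ℝ) (I : Finset (Fin n)), 0 < τ ∧ (∀ i ∈ I, τ ≤ p i) ∧ 64 * k ≤ I.card ∧
      (∑ i, √(p i)) ^ 2 ≤ 10 * n * τ * I.card := by
  classical
  set N : Fin n → ℕ := fun i => (Finset.univ.filter fun j => p i ≤ p j).card with hN
  set J : Finset (Fin n) := Finset.univ.filter fun i => 64 * k ≤ N i ∧ 0 < p i with hJ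
  set Jc : Finset (Fin n) := Finset.univ.filter fun i => N i < 64 * k with hJc
  have hkR : (1 : ℝ) ≤ (k : ℝ) := by exact_mod_cast hk
  have hJcard : Jc.card ≤ 64 * k := by
    rcases Jc.eq_empty_or_nonempty with h | h
    · rw [h]; simp
    · obtain ⟨i1, hi1, hmin⟩ := Jc.exists_min_image p h
      have h1 : Jc ⊆ Finset.univ.filter fun j => p i1 ≤ p j := by
        intro j hj
        simp only [Finset.mem_filter, Finset.mem_univ, true_and]
        exact hmin j hj
      have h2 : N i1 < 64 * k := by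
        simpa [hJc] using hi1
      have h3 := Finset.card_le_card h1
      have h4 : (Finset.univ.filter fun j => p i1 ≤ p j).card = N i1 := rfl
      omega
  have hJcardR : (Jc.card : ℝ) ≤ 64 * k := by exact_mod_cast hJcard
  -- splitting of sums
  have hsplit : ∀ f : Fin n → ℝ, (∀ i, p i = 0 → f i = 0) →
      ∑ i, f i = ∑ i ∈ Jc, f i + ∑ i ∈ J, f i := by
    intro f hf
    have hdisj : Disjoint Jc J := by
      rw [Finset.disjoint_left]
      intro i hi hi'
      simp only [hJc, hJ, Finset.mem_filter, Finset.mem_univ, true_and] at hi hi'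
      omega
    rw [← Finset.sum_union hdisj]
    symm
    refine Finset.sum_subset (Finset.subset_univ _) fun i _ hi => ?_
    apply hf
    simp only [hJc, hJ, Finset.mem_union, Finset.mem_filter, Finset.mem_univ, true_and,
      not_or, not_and, not_lt] at hi
    exact le_antisymm (hi.2 hi.1) (h0 i)
  have hJcp : ∑ i ∈ Jc, p i ≤ k / 4 := by
    calc ∑ i ∈ Jc, p i ≤ ∑ i ∈ Jc, (1 / 256 : ℝ) := Finset.sum_le_sum fun i _ => hq i
      _ = Jc.card * (1 / 256 : ℝ) := by rw [Finset.sum_const, nsmul_eq_mul]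
      _ ≤ 64 * k * (1 / 256 : ℝ) := by
          exact mul_le_mul_of_nonneg_right hJcardR (by norm_num)
      _ = k / 4 := by ring
  have hJp : 3 / 4 * (k : ℝ) ≤ ∑ i ∈ J, p i := by
    have := hsplit p (fun i h => h)
    rw [hsum] at this
    linarith
  have hJne : J.Nonempty := by
    by_contra h
    rw [Finset.not_nonempty_iff_eq_empty] at h
    rw [h, Finset.sum_empty] at hJp
    linarith
  obtain ⟨i0, hi0, hmax⟩ := J.exists_max_image (fun i => p i * N i) hJne
  have hi0' : 64 * k ≤ N i0 ∧ 0 < p i0 := by simpa [hJ] using hi0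
  set F : ℝ := p i0 * N i0 with hF
  have hFpos : 0 ≤ F := by
    rw [hF]; exact mul_nonneg (h0 _) (Nat.cast_nonneg _)
  refine ⟨p i0, Finset.univ.filter fun j => p i0 ≤ p j, hi0'.2, ?_, hi0'.1, ?_⟩
  · intro i hi
    simpa using hi
  have hFn : 10 * (n : ℝ) * p i0 * ((Finset.univ.filter fun j => p i0 ≤ p j).card : ℝ) =
      10 * (n * F) := by
    rw [hF]; ring
  rw [hFn]
  have hnR : (0 : ℝ) ≤ n := Nat.cast_nonneg _
  -- lower bound for F
  have hlow : 48 * (k : ℝ) ^ 2 ≤ n * F := by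
    have h1 : ∑ i ∈ J, p i ≤ ∑ i ∈ J, F / (64 * k) := by
      refine Finset.sum_le_sum fun i hi => ?_
      have hi' : 64 * k ≤ N i ∧ 0 < p i := by simpa [hJ] using hi
      rw [le_div_iff₀ (by positivity)]
      have h2 : (64 * k : ℝ) ≤ N i := by exact_mod_cast hi'.1
      calc p i * (64 * k) ≤ p i * N i := mul_le_mul_of_nonneg_left h2 (h0 i)
        _ ≤ F := hmax i hi
    rw [Finset.sum_const, nsmul_eq_mul] at h1
    have h3 : (J.card : ℝ) ≤ n := by
      have := Finset.card_le_univ J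
      rw [Fintype.card_fin] at this
      exact_mod_cast this
    have h4 : (J.card : ℝ) * (F / (64 * k)) ≤ n * (F / (64 * k)) :=
      mul_le_mul_of_nonneg_right h3 (by positivity)
    have h5 : 3 / 4 * (k : ℝ) ≤ n * (F / (64 * k)) := by linarith
    have h6 : n * (F / (64 * k)) = n * F / (64 * k) := by ring
    rw [h6, le_div_iff₀ (by positivity)] at h5
    nlinarith
  -- the sum over J
  have hJs : ∑ i ∈ J, √(p i) ≤ 2 * √(n * F) := by
    have h1 : ∑ i ∈ J, √(p i) ≤ ∑ i ∈ J, √F * (1 / √(N i : ℝ)) := by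
      refine Finset.sum_le_sum fun i hi => ?_
      have hi' : 64 * k ≤ N i ∧ 0 < p i := by simpa [hJ] using hi
      have hNi : (0 : ℝ) < N i := by
        have : 0 < N i := by omega
        exact_mod_cast this
      rw [mul_one_div, ← Real.sqrt_div hFpos]
      refine Real.sqrt_le_sqrt ?_
      rw [le_div_iff₀ hNi]
      exact hmax i hi
    have h2 : ∑ i ∈ J, √F * (1 / √(N i : ℝ)) ≤ ∑ i, √F * (1 / √(N i : ℝ)) := by
      refine Finset.sum_le_sum_of_subset_of_nonneg (Finset.subset_univ _) fun i _ _ => ?_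
      positivity
    have h3 : ∑ i, 1 / √(N i : ℝ) ≤ 2 * √(n : ℝ) := by
      have := rank_sum p n Finset.univ (by simp)
      exact this
    have h2' : ∑ i, √F * (1 / √(N i : ℝ)) = √F * ∑ i, 1 / √(N i : ℝ) := by
      rw [Finset.mul_sum]
    rw [h2'] at h2
    calc ∑ i ∈ J, √(p i) ≤ √F * ∑ i, 1 / √(N i : ℝ) := h1.trans h2
      _ ≤ √F * (2 * √(n : ℝ)) := mul_le_mul_of_nonneg_left h3 (Real.sqrt_nonneg _)
      _ = 2 * √(n * F) := by rw [Real.sqrt_mul hnR]; ring
  have hJcs : ∑ i ∈ Jc, √(p i) ≤ 8 * k := by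
    have h1 := sq_sum_le_card_mul_sum_sq (s := Jc) (f := fun i => √(p i))
    have h2 : ∑ i ∈ Jc, √(p i) ^ 2 = ∑ i ∈ Jc, p i :=
      Finset.sum_congr rfl fun i _ => Real.sq_sqrt (h0 i)
    rw [h2] at h1
    have h3 : ∑ i ∈ Jc, p i ≤ k := by linarith
    have h4 : (Jc.card : ℝ) * ∑ i ∈ Jc, p i ≤ (64 * k) * k :=
      mul_le_mul hJcardR h3 (Finset.sum_nonneg fun i _ => h0 i) (by positivity)
    refine (abs_le_of_sq_le_sq' ?_ (by positivity)).2
    nlinarith
  rw [hsplit (fun i => √(p i)) (fun i h => by rw [h, Real.sqrt_zero])]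
  set g : ℝ := √(n * F) with hg
  have hg0 : 0 ≤ g := Real.sqrt_nonneg _
  have hg2 : g ^ 2 = n * F := Real.sq_sqrt (mul_nonneg hnR hFpos)
  rw [← hg2] at hlow ⊢
  have hA0 : 0 ≤ ∑ i ∈ Jc, √(p i) + ∑ i ∈ J, √(p i) := by positivity
  have hA : ∑ i ∈ Jc, √(p i) + ∑ i ∈ J, √(p i) ≤ 8 * k + 2 * g := by linarith
  calc (∑ i ∈ Jc, √(p i) + ∑ i ∈ J, √(p i)) ^ 2 ≤ (8 * k + 2 * g) ^ 2 :=
        pow_le_pow_left₀ hA0 hA 2
    _ ≤ 10 * g ^ 2 := by nlinarith [sq_nonneg (7 * (k : ℝ) - g)]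

lemma aux_div (b r sb sr : ℝ) (hsr : 0 < sr) (hb : sb * sb = b) (hr : sr * sr = r) :
    b * sr / r = sb * (sb / sr) := by
  subst hb
  subst hr
  field_simp

/-- Level and signs. -/
theorem level_signs {n : ℕ} (P : Matrix (Fin n) (Fin n) ℝ) (hs : P.transpose = P)
    (hi : P * P = P) (q : ℝ) (hq1 : q ≤ 1 / 256) (hq : ∀ i, P i i ≤ q) (k : ℕ) (hk : 1 ≤ k)
    (htr : P.trace = k) :
    ∃ (B : Finset (Fin n)) (u : Fin n → ℝ), P.mulVec u = u ∧ 6 * k ≤ B.card ∧
      (∀ i ∈ B, 1 ≤ |u i|) ∧ ∑ i, |u i| ≤ 68 * √(n * B.card) := by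
  classical
  have hp : ∀ i, ∑ v, P i v ^ 2 = P i i := by
    intro i
    have h1 : (P * P) i i = P i i := by rw [hi]
    rw [Matrix.mul_apply] at h1
    rw [← h1]
    refine Finset.sum_congr rfl fun v _ => ?_
    have h2 : P v i = P i v := by
      conv_lhs => rw [← hs]
      rfl
    rw [h2, sq]
  have h0 : ∀ i, 0 ≤ P i i := fun i => by
    rw [← hp]; exact Finset.sum_nonneg fun v _ => sq_nonneg _
  obtain ⟨τ, I, hτ, hI, hIk, hA⟩ := level (fun i => P i i) h0 (fun i => (hq i).trans hq1) k hk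
    (by rw [← htr]; rfl)
  set A : ℝ := ∑ i, √(P i i) with hAdef
  set r : ℝ := (I.card : ℝ) with hr
  have hkR : (1 : ℝ) ≤ (k : ℝ) := by exact_mod_cast hk
  have hrk : 64 * (k : ℝ) ≤ r := by rw [hr]; exact_mod_cast hIk
  have hrpos : 0 < r := by linarith
  have hApos : 0 < A := by
    have h1 : ∑ i ∈ I, √τ ≤ ∑ i ∈ I, √(P i i) :=
      Finset.sum_le_sum fun i hi => Real.sqrt_le_sqrt (hI i hi)
    have h2 : ∑ i ∈ I, √(P i i) ≤ A :=
      Finset.sum_le_sum_of_subset_of_nonneg (Finset.subset_univ _)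
        fun i _ _ => Real.sqrt_nonneg _
    rw [Finset.sum_const, nsmul_eq_mul] at h1
    have h3 : 0 < (I.card : ℝ) * √τ := mul_pos hrpos (Real.sqrt_pos.2 hτ)
    linarith
  set U : (Fin n → Bool) → Fin n → ℝ := fun σ i => ∑ v, sg (σ v) * P i v with hU
  set Bs : (Fin n → Bool) → Finset (Fin n) := fun σ => I.filter fun i => τ / 4 ≤ U σ i ^ 2
    with hBs
  set M : ℝ := (Fintype.card (Fin n → Bool) : ℝ) with hM
  have hMpos : 0 < M := by
    rw [hM]; exact_mod_cast Fintype.card_pos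
  set lam : ℝ := 3 / 32 * r / A with hlam
  have hlampos : 0 < lam := by rw [hlam]; positivity
  -- average of the number of good indices
  have h1 : 3 / 16 * M * r ≤ ∑ σ, ((Bs σ).card : ℝ) := by
    have h2 : ∀ σ, ((Bs σ).card : ℝ) = ∑ i ∈ I, if τ / 4 ≤ U σ i ^ 2 then (1 : ℝ) else 0 := by
      intro σ
      rw [hBs, Finset.sum_ite, Finset.sum_const, Finset.sum_const_zero]
      simp
    simp only [h2]
    rw [Finset.sum_comm]
    have h3 : ∀ i ∈ I, 3 / 16 * M ≤
        ∑ σ : Fin n → Bool, if τ / 4 ≤ U σ i ^ 2 then (1 : ℝ) else 0 := by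
      intro i hiI
      have hpi : 0 < P i i := lt_of_lt_of_le hτ (hI i hiI)
      refine (pz (fun v => P i v) (P i i) hpi (hp i)).trans (Finset.sum_le_sum fun σ _ => ?_)
      have h4 : U σ i = ∑ v, sg (σ v) * P i v := rfl
      rw [← h4]
      have h5 : τ ≤ P i i := hI i hiI
      split_ifs with h6 h7 h7
      · exact le_rfl
      · exfalso; apply h7; linarith
      · norm_num
      · exact le_rfl
    calc 3 / 16 * M * r = ∑ i ∈ I, 3 / 16 * M := by
          rw [Finset.sum_const, nsmul_eq_mul, hr]; ring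
      _ ≤ _ := Finset.sum_le_sum h3
  have h2 : ∑ σ, ∑ i, |U σ i| ≤ M * A := by
    rw [Finset.sum_comm, hAdef, Finset.mul_sum]
    refine Finset.sum_le_sum fun i _ => ?_
    have := sum_abs_le (fun v => P i v)
    rw [hp i] at this
    exact this
  obtain ⟨σ, -, hσ⟩ : ∃ σ ∈ (Finset.univ : Finset (Fin n → Bool)),
      3 / 32 * r ≤ ((Bs σ).card : ℝ) - lam * ∑ i, |U σ i| := by
    by_contra hcon
    push Not at hcon
    have h3 : ∑ σ : Fin n → Bool, (((Bs σ).card : ℝ) - lam * ∑ i, |U σ i|) <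
        ∑ _σ : Fin n → Bool, 3 / 32 * r :=
      Finset.sum_lt_sum_of_nonempty Finset.univ_nonempty hcon
    rw [Finset.sum_sub_distrib, ← Finset.mul_sum, Finset.sum_const, nsmul_eq_mul,
      Finset.card_univ, ← hM] at h3
    have h4 : lam * ∑ σ, ∑ i, |U σ i| ≤ lam * (M * A) :=
      mul_le_mul_of_nonneg_left h2 hlampos.le
    have h5 : lam * (M * A) = 3 / 32 * r * M := by
      rw [hlam]; field_simp
    nlinarith
  have hUpos : 0 ≤ ∑ i, |U σ i| := Finset.sum_nonneg fun i _ => abs_nonneg _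
  have hb1 : 3 / 32 * r ≤ ((Bs σ).card : ℝ) := by nlinarith [mul_nonneg hlampos.le hUpos]
  have hb2 : lam * ∑ i, |U σ i| ≤ ((Bs σ).card : ℝ) := by nlinarith
  have hbr : ((Bs σ).card : ℝ) ≤ r := by
    rw [hr]; exact_mod_cast Finset.card_le_card (Finset.filter_subset _ _)
  set b : ℝ := ((Bs σ).card : ℝ) with hb
  have hbpos : 0 < b := by linarith
  have hsτ : 0 < √τ := Real.sqrt_pos.2 hτ
  have hUP : P.mulVec (U σ) = U σ := by
    have h3 : U σ = P.mulVec (fun v => sg (σ v)) := by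
      funext i
      simp only [hU, Matrix.mulVec, dotProduct]
      exact Finset.sum_congr rfl fun v _ => mul_comm _ _
    rw [h3, Matrix.mulVec_mulVec, hi]
  refine ⟨Bs σ, (2 / √τ) • U σ, ?_, ?_, ?_, ?_⟩
  · rw [Matrix.mulVec_smul, hUP]
  · have h3 : (6 * k : ℝ) ≤ b := by linarith
    rw [hb] at h3
    exact_mod_cast h3
  · intro i hi
    have h3 : τ / 4 ≤ U σ i ^ 2 := (Finset.mem_filter.1 hi).2
    have h4 : √τ / 2 ≤ |U σ i| := by
      rw [← Real.sqrt_sq_eq_abs]
      have h5 : √τ / 2 = √(τ / 4) := by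
        rw [Real.sqrt_div' _ (by norm_num : (0:ℝ) ≤ 4)]
        congr 1
        rw [show (4 : ℝ) = 2 ^ 2 by norm_num, Real.sqrt_sq (by norm_num)]
      rw [h5]
      exact Real.sqrt_le_sqrt h3
    rw [Pi.smul_apply, smul_eq_mul, abs_mul, abs_of_pos (by positivity : (0:ℝ) < 2 / √τ)]
    rw [div_mul_eq_mul_div, le_div_iff₀ hsτ]
    linarith
  · have h3 : ∑ i, |((2 / √τ) • U σ) i| = 2 / √τ * ∑ i, |U σ i| := by
      rw [Finset.mul_sum]
      refine Finset.sum_congr rfl fun i _ => ?_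
      rw [Pi.smul_apply, smul_eq_mul, abs_mul, abs_of_pos (by positivity : (0:ℝ) < 2 / √τ)]
    rw [h3]
    -- sum |U| ≤ (32/3) A b / r
    have h4 : ∑ i, |U σ i| ≤ 32 / 3 * A * b / r := by
      have h5 : ∑ i, |U σ i| ≤ b / lam := by
        rw [le_div_iff₀ hlampos]; linarith
      refine h5.trans (le_of_eq ?_)
      rw [hlam]
      field_simp
    have hA2 : A ≤ √(10 * n * τ * r) := by
      rw [← Real.sqrt_sq hApos.le]
      exact Real.sqrt_le_sqrt hA
    have hA3 : √(10 * n * τ * r) = √10 * √n * √τ * √r := by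
      rw [Real.sqrt_mul (by positivity), Real.sqrt_mul (by positivity),
        Real.sqrt_mul (by norm_num)]
    have hnn : (0 : ℝ) ≤ n := Nat.cast_nonneg _
    have hsr : 0 < √r := Real.sqrt_pos.2 hrpos
    have hr2 : √r * √r = r := Real.mul_self_sqrt hrpos.le
    have hb2' : √b * √b = b := Real.mul_self_sqrt hbpos.le
    have hsb : √b ≤ √r := Real.sqrt_le_sqrt hbr
    have h10 : √10 ≤ 3.1875 := by
      rw [show (3.1875 : ℝ) = √(3.1875 ^ 2) by rw [Real.sqrt_sq (by norm_num)]]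
      exact Real.sqrt_le_sqrt (by norm_num)
    rw [hA3] at hA2
    calc 2 / √τ * ∑ i, |U σ i| ≤ 2 / √τ * (32 / 3 * A * b / r) :=
          mul_le_mul_of_nonneg_left h4 (by positivity)
      _ ≤ 2 / √τ * (32 / 3 * (√10 * √n * √τ * √r) * b / r) := by
          gcongr
      _ = 64 / 3 * √10 * √n * (b * √r / r) := by
          field_simp
          ring
      _ = 64 / 3 * √10 * √n * (√b * (√b / √r)) := by
          rw [aux_div b r (√b) (√r) hsr hb2' hr2]
      _ ≤ 68 * √n * √b := by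
          have h6 : √b / √r ≤ 1 := (div_le_one hsr).2 hsb
          have h7 : √b * (√b / √r) ≤ √b := by
            have := mul_le_mul_of_nonneg_left h6 (Real.sqrt_nonneg b)
            linarith
          calc 64 / 3 * √10 * √n * (√b * (√b / √r)) ≤ 64 / 3 * 3.1875 * √n * √b := by
                gcongr
            _ = 68 * √n * √b := by ring
      _ = 68 * √(n * b) := by rw [Real.sqrt_mul hnn]; ring

end Pool.Agent.Helper98.QH
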